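import Pool.Agent.MP_ee8c61_ag.Q3.Defs
import Pool.Agent.MP_ee8c61_ag.M3RESID.U3

/-!
The residue of the volume form and of the primitive without the hypothesis on the root.
-/

namespace Pool.Agent.MP_ee8c61_ag.Q3

open M3 M3RESID

theorem iav0 : IAV0 := by
  intro f la b β Q M o H hM ho
  obtain ⟨C', ψ, e, h1, h2, h3⟩ := exists_rat (P := (M.v o).pl) hM ho rfl
  obtain ⟨v, hv⟩ := Pl.exists_Res (P := (M.v o).pl) (exp_v0 hM ho) (v := bf la β) (by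
    rw [bf_δ H.bs]
    exact sub_mem (cst_F _ _) ((M.v o).F_anti zero_le_one (fQ_F hM H.bs la o)))
  exact ⟨⟨C', la.den, ψ, e, v⟩, C'.fin (kf_fg (P := (M.v o).pl) hM rfl), la.pos, h1, h3, h2, hv⟩

theorem iVol0 : AllI0 fun C la b o X Y => Vol0 (C.sd la b o X Y) := by
  intro f la b β Q M C o X Y h hX hY
  refine ⟨⟨hX.fin, ⟨_, _, hX.q0, hX.ψ0, hX.rat⟩, res_prim h.ok h.hyp.bs rfl hX.rd hX.rv⟩,
    hX.q0, hX.ψ0, hX.rat, fun Γ hΓ => ?_⟩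
  obtain ⟨p, hp⟩ := hΓ.sur
  obtain ⟨g, hg⟩ := hΓ.nc
  obtain ⟨C2, -, hA⟩ := cv_at X.Co hX.fin hp hg.1 hg.2
  exact Classical.epsilon_spec (p := fun a : ℚ => Exp X.d Γ a) ⟨_, exp_cv hA hX.ψ0 hX.rat⟩

end Pool.Agent.MP_ee8c61_ag.Q3
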